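import Mathlib
import Pool.Agent.LebSup.Defs
import Pool.Agent.LebSup.Main

set_option autoImplicit false

open MeasureTheory Filter Topology Set

namespace Pool.Agent.Results.MP_8e48cc_an.LebesguePointsFail

open Pool.Agent.LebSup

/-- In the unweighted space `ℝ⁵` (weight `w = 1`), with `p = 4/3` and the sharp Sobolev exponent
`κ = n / (n - p) = 15/11`, so that `p < 1 + 1/κ`, there are an admissible operator `𝒜` and a
supersolution `u` of `-div 𝒜(x, ∇u) = 0` in the unit ball such that no representative of `u` is at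
every point both the essential lower limit of `u` and the limit of the averages of `u`. -/
theorem result :
    PAdmissible (n := 5) (fun _ => 1) (4 / 3) (15 / 11) ∧
    (1 : ℝ) < 4 / 3 ∧ (4 / 3 : ℝ) < 1 + 1 / (15 / 11) ∧
    ∃ A : E 5 → E 5 → E 5, IsOperator (fun _ => 1) (4 / 3) A ∧
      ∃ u : E 5 → ℝ, IsSupersolution (fun _ => 1) (4 / 3) A (Metric.ball 0 1) u ∧
        ¬ HasLebesgueRepresentative (fun _ => 1) (Metric.ball 0 1) u := by
  refine ⟨?_, by norm_num, by norm_num, AA, isOperator_AA, uu 0, isSupersolution_uu, not_rep⟩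
  have h := admissible_one (n := 5) (p := 4 / 3) (by norm_num) (by norm_num)
  have e : ((5 : ℕ) : ℝ) / (((5 : ℕ) : ℝ) - 4 / 3) = 15 / 11 := by norm_num
  rwa [e] at h

end Pool.Agent.Results.MP_8e48cc_an.LebesguePointsFail
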